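import Pool.Agent.Helper93.TS.Stmts

set_option autoImplicit false

namespace Pool.Agent.Helper93.TS

open Pool.Agent.Helper8.Kak

theorem apb_cell {m N : ℕ} (D : Dat m N) (l : D.L) (j i : Fin N) (t : Fin (N * N))
    (h : (t : ℕ) = N * (j : ℕ) + (i : ℕ)) :
    cell (cd N) (pnt (fun (q : D.L × Fin N) k => (N : ℝ) * D.x q.1 k + ((q.2 : ℕ) : ℝ) * D.v q.1 k)
      (fun q => D.v q.1) (l, j) i) = D.Pf l t := by
  have hN : (0 : ℝ) < N := by
    have := D.hN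
    exact_mod_cast this
  unfold Dat.Pf cell pnt cd fd ht
  funext k
  congr 1
  have e : ((t : ℕ) : ℝ) = (N : ℝ) * ((j : ℕ) : ℝ) + ((i : ℕ) : ℝ) := by
    rw [h]; push_cast; ring
  rw [e]
  push_cast
  field_simp
  ring

theorem apb_split {N : ℕ} (t : Fin (N * N)) : (t : ℕ) = N * (Jc t : ℕ) + (In t : ℕ) := by
  show (t : ℕ) = N * (t / N : ℕ) + (t % N : ℕ)
  exact (Nat.div_add_mod _ _).symm

open VV in
theorem apb_K {m N : ℕ} (D : Dat m N) (y y' : Z D.Ω) :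
    (({T0, c, W, P0c} : Finset VV).inf D.V) y y' ↔
      (D.V .T0 y y' ∧ D.V .c y y' ∧ D.V .W y y' ∧ D.V .P0c y y') := by
  rw [inf_rel]
  simp only [Finset.mem_insert, Finset.mem_singleton, forall_eq_or_imp, forall_eq]

open VV in
theorem apb_H1 {m N : ℕ} (D : Dat m N) (hp : IsProb D.pz) (i : VV) (r : Setoid (Z D.Ω))
    (h : ∀ y y', 0 < D.pz y → 0 < D.pz y' → D.V .T0 y y' → (D.V i y y' ↔ r y y')) :
    D.H {T0, c, W, P0c, i} = Ent D.pz (({T0, c, W, P0c} : Finset VV).inf D.V ⊓ r) := by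
  refine Ent_congr' hp fun y y' h1 h2 => ?_
  have e : ((({T0, c, W, P0c} : Finset VV).inf D.V ⊓ r) y y' ↔
    (({T0, c, W, P0c} : Finset VV).inf D.V) y y' ∧ r y y') := Iff.rfl
  rw [e, apb_K, inf_rel]
  simp only [Finset.mem_insert, Finset.mem_singleton, forall_eq_or_imp, forall_eq]
  constructor
  · rintro ⟨a, b, d, f, g⟩
    exact ⟨⟨a, b, d, f⟩, (h y y' h1 h2 a).1 g⟩
  · rintro ⟨⟨a, b, d, f⟩, g⟩
    exact ⟨a, b, d, f, (h y y' h1 h2 a).2 g⟩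

open VV in
theorem apb_H2 {m N : ℕ} (D : Dat m N) (hp : IsProb D.pz) (i j : VV) (r s : Setoid (Z D.Ω))
    (h : ∀ y y', 0 < D.pz y → 0 < D.pz y' → D.V .T0 y y' → (D.V i y y' ↔ r y y'))
    (h' : ∀ y y', 0 < D.pz y → 0 < D.pz y' → D.V .T0 y y' → D.V i y y' →
      (D.V j y y' ↔ s y y')) :
    D.H {T0, c, W, P0c, i, j} = Ent D.pz (({T0, c, W, P0c} : Finset VV).inf D.V ⊓ r ⊓ s) := by
  refine Ent_congr' hp fun y y' h1 h2 => ?_
  have e : ((({T0, c, W, P0c} : Finset VV).inf D.V ⊓ r ⊓ s) y y' ↔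
    ((({T0, c, W, P0c} : Finset VV).inf D.V) y y' ∧ r y y') ∧ s y y') := Iff.rfl
  rw [e, apb_K, inf_rel]
  simp only [Finset.mem_insert, Finset.mem_singleton, forall_eq_or_imp, forall_eq]
  constructor
  · rintro ⟨a, b, d, f, g, k⟩
    exact ⟨⟨⟨a, b, d, f⟩, (h y y' h1 h2 a).1 g⟩, (h' y y' h1 h2 a g).1 k⟩
  · rintro ⟨⟨⟨a, b, d, f⟩, g⟩, k⟩
    have g' := (h y y' h1 h2 a).2 g
    exact ⟨a, b, d, f, g', (h' y y' h1 h2 a g').2 k⟩

open VV in
theorem st_APB (hSPA : ST_SPA) : ST_APB := by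
  intro m α hS
  obtain ⟨C, hC0, hC⟩ := hS
  refine ⟨C, hC0, fun N D => ?_⟩
  have hN1 := D.hN
  have hN : (1 : ℝ) ≤ N := by exact_mod_cast hN1
  have hN0 : (0 : ℝ) < N := by linarith
  obtain ⟨hp, hlk, -⟩ := hSPA m N D
  have h := hC (cd N) N (by unfold cd; positivity)
    (by unfold cd; rw [div_le_one hN0]; exact hN)
    (by unfold cd; rw [one_div, inv_mul_cancel₀ hN0.ne'])
    (D.L × Fin N)
    (fun q k => (N : ℝ) * D.x q.1 k + ((q.2 : ℕ) : ℝ) * D.v q.1 k) (fun q => D.v q.1)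
    (fun q i => D.hv q.1 i) (Z D.Ω) D.pz hp (({T0, c, W, P0c} : Finset VV).inf D.V)
    (fun y => (D.l (z0 y), Jc (D.T (z0 y)))) (fun y => In (D.T (zB y)))
  have hB : ∀ y y', 0 < D.pz y → 0 < D.pz y' → D.V .T0 y y' →
      (D.V .B y y' ↔ (Setoid.ker (fun y => In (D.T (zB y)))) y y') := by
    intro y y' h1 h2 h3
    have t1 := (hlk y h1).tB
    have t2 := (hlk y' h2).tB
    rw [Dat.V_T0] at h3
    show D.T (zB y) = D.T (zB y') ↔ In (D.T (zB y)) = In (D.T (zB y'))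
    constructor
    · intro e; rw [e]
    · intro e
      apply Fin.ext
      rw [apb_split (D.T (zB y)), apb_split (D.T (zB y')), t1, t2, h3, e]
  have hl : ∀ y y', 0 < D.pz y → 0 < D.pz y' → D.V .T0 y y' →
      (D.V .l0 y y' ↔ (Setoid.ker (fun y => (D.l (z0 y), Jc (D.T (z0 y))))) y y') := by
    intro y y' h1 h2 h3
    rw [Dat.V_T0] at h3
    show D.l (z0 y) = D.l (z0 y') ↔ (D.l (z0 y), Jc (D.T (z0 y))) = (D.l (z0 y'), Jc (D.T (z0 y')))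
    rw [h3, Prod.mk.injEq]
    simp
  have hd : ∀ y y', 0 < D.pz y → 0 < D.pz y' → D.V .T0 y y' →
      (D.V .d0 y y' ↔ (Setoid.ker (fun y => cell (cd N)
        ((fun q : D.L × Fin N => D.v q.1) ((fun y => (D.l (z0 y), Jc (D.T (z0 y)))) y)))) y y') :=
    fun y y' _ _ _ => Iff.rfl
  have hQ : ∀ y y', 0 < D.pz y → 0 < D.pz y' → D.V .T0 y y' → D.V .B y y' →
      (D.V .Q y y' ↔ (Setoid.ker (fun y => cell (cd N) (pnt
        (fun (q : D.L × Fin N) k => (N : ℝ) * D.x q.1 k + ((q.2 : ℕ) : ℝ) * D.v q.1 k)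
        (fun q => D.v q.1) ((fun y => (D.l (z0 y), Jc (D.T (z0 y)))) y)
          ((fun y => In (D.T (zB y))) y)))) y y') := by
    intro y y' h1 h2 _ _
    have t1 := (hlk y h1).tB
    have t2 := (hlk y' h2).tB
    show D.Pf (D.l (z0 y)) (D.T (zB y)) = D.Pf (D.l (z0 y')) (D.T (zB y')) ↔
      cell (cd N) (pnt _ _ (D.l (z0 y), Jc (D.T (z0 y))) (In (D.T (zB y)))) =
      cell (cd N) (pnt _ _ (D.l (z0 y'), Jc (D.T (z0 y'))) (In (D.T (zB y'))))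
    rw [apb_cell D (D.l (z0 y)) (Jc (D.T (z0 y))) (In (D.T (zB y))) (D.T (zB y))
        (by rw [← t1]; exact apb_split _),
      apb_cell D (D.l (z0 y')) (Jc (D.T (z0 y'))) (In (D.T (zB y'))) (D.T (zB y'))
        (by rw [← t2]; exact apb_split _)]
  rw [← apb_H1 D hp .d0 _ hd, ← apb_H2 D hp .B .Q _ _ hB hQ, ← apb_H1 D hp .B _ hB,
    ← apb_H2 D hp .l0 .B _ _ hl (fun y y' h1 h2 h3 _ => hB y y' h1 h2 h3),
    ← apb_H1 D hp .l0 _ hl] at h
  exact h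

end Pool.Agent.Helper93.TS
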