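import Pool.Agent.Helper93.TS.Stmts

set_option autoImplicit false

namespace Pool.Agent.Helper93.TS

open Pool.Agent.Helper8.Kak

theorem ces_real {M R T σ ρ τ g : ℝ} (hM : 1 ≤ M) (hσ : |σ| ≤ M) (hR : R = max |ρ| 1)
    (hT : T = max |τ| 1) (hRM : R ≤ M) (hTM : T ≤ M) (hρ : ρ = 0 ∨ 1 ≤ |ρ|)
    (hτ : τ = 0 ∨ 1 ≤ |τ|) (hg : g = 0 ∨ 1 ≤ |g|) (hσ0 : σ ≠ 0)
    (h1 : 0 ≤ g - ρ * τ / σ) (h2 : g - ρ * τ / σ ≤ 1) :
    |σ - ρ * τ / g| ≤ 2 * (M / R * (M / T)) := by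
  have hM0 : 0 < M := by linarith
  have hR1 : 1 ≤ R := hR ▸ le_max_right _ _
  have hT1 : 1 ≤ T := hT ▸ le_max_right _ _
  have hR0 : 0 < R := by linarith
  have hT0 : 0 < T := by linarith
  have hMR : 1 ≤ M / R := (one_le_div hR0).2 hRM
  have hMT : 1 ≤ M / T := (one_le_div hT0).2 hTM
  have hσp : 0 < |σ| := abs_pos.2 hσ0
  by_cases h0 : ρ * τ = 0
  · rw [h0, zero_div, sub_zero]
    rcases mul_eq_zero.1 h0 with h | h
    · have : R = 1 := by rw [hR, h]; simp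
      rw [this, div_one]
      have : M ≤ M * (M / T) := le_mul_of_one_le_right hM0.le hMT
      linarith
    · have : T = 1 := by rw [hT, h]; simp
      rw [this, div_one]
      have : M ≤ M / R * M := le_mul_of_one_le_left hM0.le hMR
      linarith
  · have hρ0 : ρ ≠ 0 := fun h => h0 (by rw [h, zero_mul])
    have hτ0 : τ ≠ 0 := fun h => h0 (by rw [h, mul_zero])
    have hR' : R = |ρ| := by rw [hR]; exact max_eq_left (hρ.resolve_left hρ0)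
    have hT' : T = |τ| := by rw [hT]; exact max_eq_left (hτ.resolve_left hτ0)
    have hRT : R * T = |ρ * τ| := by rw [hR', hT', abs_mul]
    have hRTp : 0 < R * T := mul_pos hR0 hT0
    have e0 : M / R * (M / T) = M * M / (R * T) := by
      rw [div_mul_div_comm]
    rw [e0]
    have hy : |g - ρ * τ / σ| ≤ 1 := abs_le.2 ⟨by linarith, h2⟩
    by_cases hg0 : g = 0
    · rw [hg0, zero_sub, abs_neg, abs_div, ← hRT, div_le_iff₀ hσp, one_mul] at hy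
      rw [hg0, div_zero, sub_zero]
      have h3 : R * T ≤ M := hy.trans hσ
      have h4 : M ≤ M * M / (R * T) := by
        rw [le_div_iff₀ hRTp]
        exact mul_le_mul_of_nonneg_left h3 hM0.le
      linarith
    · have hg1 : 1 ≤ |g| := hg.resolve_left hg0
      have hgp : 0 < |g| := by linarith
      have h3 : |ρ * τ / σ| ≤ 2 * |g| := by
        have e : ρ * τ / σ = g - (g - ρ * τ / σ) := by ring
        have : |ρ * τ / σ| ≤ |g| + |g - ρ * τ / σ| := by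
          conv_lhs => rw [e]
          exact abs_sub _ _
        linarith
      rw [abs_div, ← hRT, div_le_iff₀ hσp] at h3
      have e1 : σ - ρ * τ / g = σ * (g - ρ * τ / σ) / g := by
        field_simp
      rw [e1, abs_div, abs_mul]
      have h4 : |σ| * |g - ρ * τ / σ| / |g| ≤ |σ| / |g| := by
        refine div_le_div_of_nonneg_right ?_ hgp.le
        exact mul_le_of_le_one_right hσp.le hy
      refine h4.trans ?_
      rw [div_le_iff₀ hgp]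
      have h5 : |σ| * |σ| ≤ M * M := mul_le_mul hσ hσ hσp.le hM0.le
      have h6 : |σ| * (R * T) ≤ 2 * (M * M) * |g| := by
        calc |σ| * (R * T) ≤ |σ| * (2 * |g| * |σ|) := mul_le_mul_of_nonneg_left h3 hσp.le
          _ = 2 * |g| * (|σ| * |σ|) := by ring
          _ ≤ 2 * |g| * (M * M) := mul_le_mul_of_nonneg_left h5 (by positivity)
          _ = 2 * (M * M) * |g| := by ring
      have e2 : 2 * (M * M / (R * T)) * |g| = 2 * (M * M) * |g| / (R * T) := by ring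
      rw [e2, le_div_iff₀ hRTp]
      exact h6

theorem ces_dst {M : ℕ} (a b : Fin M) :
    1 / dst a b = (M : ℝ) / max |((a : ℕ) : ℝ) - ((b : ℕ) : ℝ)| 1 := by
  have hM : 0 < M := lt_of_le_of_lt (Nat.zero_le _) a.2
  have hM' : (0 : ℝ) < M := by exact_mod_cast hM
  unfold dst ht
  rw [← sub_div, abs_div, abs_of_pos hM', max_div_div_right hM'.le, one_div_div]

theorem ces_abs {M : ℕ} (a b : Fin M) :
    |((a : ℕ) : ℝ) - ((b : ℕ) : ℝ)| ≤ M := by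
  have h1 : ((a : ℕ) : ℝ) < M := by exact_mod_cast a.2
  have h2 : ((b : ℕ) : ℝ) < M := by exact_mod_cast b.2
  have h3 : (0 : ℝ) ≤ (a : ℕ) := Nat.cast_nonneg _
  have h4 : (0 : ℝ) ≤ (b : ℕ) := Nat.cast_nonneg _
  exact abs_le.2 ⟨by linarith, by linarith⟩

theorem ces_int (a : ℤ) : (a : ℝ) = 0 ∨ 1 ≤ |(a : ℝ)| := by
  by_cases h : a = 0
  · left; rw [h]; simp
  · right
    have := Int.one_le_abs h
    exact_mod_cast this

/-- the rounded value of `ρ τ / σ` -/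
noncomputable def ces_g {M : ℕ} (s t t1 rr : Fin M) : ℤ :=
  (((rr : ℕ) : ℤ) - ((t : ℕ) : ℤ)) - mv (((rr : ℕ) : ℤ) - ((t : ℕ) : ℤ)) s t t1

theorem ces_key {M : ℕ} (s t t1 rr : Fin M) (hne : s ≠ t) :
    |((((s : ℕ) : ℤ) - ((t : ℕ) : ℤ) : ℤ) : ℝ) - (((rr : ℕ) : ℝ) - ((t : ℕ) : ℝ)) *
      (((t1 : ℕ) : ℝ) - ((t : ℕ) : ℝ)) / (ces_g s t t1 rr : ℝ)|
      ≤ 2 * (1 / dst rr t * (1 / dst t1 t)) := by
  have hM : 0 < M := lt_of_le_of_lt (Nat.zero_le _) s.2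
  have hM1 : (1 : ℝ) ≤ M := by exact_mod_cast hM
  have hM0 : (0 : ℝ) < M := by linarith
  rw [ces_dst, ces_dst]
  have hσ0 : ((s : ℕ) : ℝ) - ((t : ℕ) : ℝ) ≠ 0 := by
    intro h
    apply hne
    apply Fin.ext
    have : ((s : ℕ) : ℝ) = ((t : ℕ) : ℝ) := by linarith
    exact_mod_cast this
  have hcast : ((((s : ℕ) : ℤ) - ((t : ℕ) : ℤ) : ℤ) : ℝ) = ((s : ℕ) : ℝ) - ((t : ℕ) : ℝ) := by
    push_cast; rfl
  rw [hcast]
  have hmv : mv (((rr : ℕ) : ℤ) - ((t : ℕ) : ℤ)) s t t1 =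
      ⌊(((rr : ℕ) : ℝ) - ((t : ℕ) : ℝ)) - (((rr : ℕ) : ℝ) - ((t : ℕ) : ℝ)) *
        (((t1 : ℕ) : ℝ) - ((t : ℕ) : ℝ)) / (((s : ℕ) : ℝ) - ((t : ℕ) : ℝ))⌋ := by
    unfold mv ht
    congr 1
    push_cast
    rw [← sub_div, ← sub_div, div_div_div_cancel_right₀ hM0.ne']
    field_simp
    ring
  have hfl := Int.floor_le ((((rr : ℕ) : ℝ) - ((t : ℕ) : ℝ)) - (((rr : ℕ) : ℝ) - ((t : ℕ) : ℝ)) *
        (((t1 : ℕ) : ℝ) - ((t : ℕ) : ℝ)) / (((s : ℕ) : ℝ) - ((t : ℕ) : ℝ)))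
  have hfl' := Int.lt_floor_add_one ((((rr : ℕ) : ℝ) - ((t : ℕ) : ℝ)) -
    (((rr : ℕ) : ℝ) - ((t : ℕ) : ℝ)) * (((t1 : ℕ) : ℝ) - ((t : ℕ) : ℝ)) /
      (((s : ℕ) : ℝ) - ((t : ℕ) : ℝ)))
  rw [← hmv] at hfl hfl'
  have hg : (ces_g s t t1 rr : ℝ) = (((rr : ℕ) : ℝ) - ((t : ℕ) : ℝ)) -
      (mv (((rr : ℕ) : ℤ) - ((t : ℕ) : ℤ)) s t t1 : ℝ) := by
    unfold ces_g
    push_cast
    rfl
  refine ces_real hM1 (ces_abs s t) rfl rfl (max_le (ces_abs rr t) hM1)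
    (max_le (ces_abs t1 t) hM1) ?_ ?_ (ces_int _) hσ0 ?_ ?_
  · have := ces_int (((rr : ℕ) : ℤ) - ((t : ℕ) : ℤ))
    push_cast at this
    exact this
  · have := ces_int (((t1 : ℕ) : ℤ) - ((t : ℕ) : ℤ))
    push_cast at this
    exact this
  · rw [hg]; linarith
  · rw [hg]; linarith

theorem st_CES : ST_CES := by
  intro Ω _ p hp M r s t t1 rr hr
  classical
  have hD : ∀ ω, 1 ≤ 1 / dst (rr ω) (t ω) * (1 / dst (t1 ω) (t ω)) := fun ω =>
    one_le_mul_of_one_le_of_one_le (Pool.Agent.Helper89.KakGeo.one_le_inv_dst _ _)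
      (Pool.Agent.Helper89.KakGeo.one_le_inv_dst _ _)
  have hmono : CE p (Setoid.ker s) r ≤
      CE p (Setoid.ker (fun ω => ((s ω : ℕ) : ℤ) - ((t ω : ℕ) : ℤ))) r := by
    refine CE_mono hp fun ω ω' h1 h2 h3 h4 => ?_
    have e1 := (hr ω ω' h1 h2 h4).1
    have e2 : ((s ω : ℕ) : ℤ) - ((t ω : ℕ) : ℤ) = ((s ω' : ℕ) : ℤ) - ((t ω' : ℕ) : ℤ) := h3
    rw [e1] at e2
    have e3 : (s ω : ℕ) = (s ω' : ℕ) := by omega
    exact Fin.ext e3
  refine hmono.trans ?_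
  have h := gibbs_int hp r (fun ω => ((s ω : ℕ) : ℤ) - ((t ω : ℕ) : ℤ))
    (fun ω a => 1 / 2 * (if |(a : ℝ) - (((rr ω : ℕ) : ℝ) - ((t ω : ℕ) : ℝ)) *
      (((t1 ω : ℕ) : ℝ) - ((t ω : ℕ) : ℝ)) / (ces_g (s ω) (t ω) (t1 ω) (rr ω) : ℝ)| ≤
        2 * (1 / dst (rr ω) (t ω) * (1 / dst (t1 ω) (t ω))) then
        (2 * (2 * (1 / dst (rr ω) (t ω) * (1 / dst (t1 ω) (t ω)))) + 1)⁻¹ else 0) +
      1 / 2 * (if a = 0 then 1 else 0))
    ?_ ?_ ?_ (fun ω => ld (rr ω) (t ω) + ld (t1 ω) (t ω) + Real.log 10) ?_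
  · unfold CE
    refine h.trans (le_of_eq ?_)
    unfold Ex
    simp only [mul_add, Finset.sum_add_distrib]
    rw [← Finset.sum_mul, hp.2, one_mul]
  · intro ω a
    have := hD ω
    split_ifs <;> positivity
  · intro ω ω' h1 h2 h3
    obtain ⟨e1, e2, e3, e4⟩ := hr ω ω' h1 h2 h3
    have e5 : ces_g (s ω) (t ω) (t1 ω) (rr ω) = ces_g (s ω') (t ω') (t1 ω') (rr ω') := by
      unfold ces_g
      rw [e4, e1, e3]
    funext a
    rw [e5, e1, e2, e3]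
  · intro ω F
    rw [Finset.sum_add_distrib, ← Finset.mul_sum, ← Finset.mul_sum]
    have h1 := sum_interval_weight ((((rr ω : ℕ) : ℝ) - ((t ω : ℕ) : ℝ)) *
      (((t1 ω : ℕ) : ℝ) - ((t ω : ℕ) : ℝ)) / (ces_g (s ω) (t ω) (t1 ω) (rr ω) : ℝ))
      (ρ := 2 * (1 / dst (rr ω) (t ω) * (1 / dst (t1 ω) (t ω)))) (by linarith [hD ω]) F
    have h2 : ∑ a ∈ F, (if a = (0 : ℤ) then (1 : ℝ) else 0) ≤ 1 := by
      rw [Finset.sum_ite_eq']
      split_ifs <;> norm_num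
    linarith
  · intro ω _
    have hDω := hD ω
    have e : Real.exp (-(ld (rr ω) (t ω) + ld (t1 ω) (t ω) + Real.log 10)) =
        (1 / dst (rr ω) (t ω) * (1 / dst (t1 ω) (t ω)) * 10)⁻¹ := by
      unfold ld
      rw [← Real.log_mul (one_div_pos.2 (dst_pos _ _)).ne' (one_div_pos.2 (dst_pos _ _)).ne',
        ← Real.log_mul (by linarith) (by norm_num), Real.exp_neg, Real.exp_log (by linarith)]
    rw [e]

    by_cases hst : s ω = t ω
    · have h0 : ((s ω : ℕ) : ℤ) - ((t ω : ℕ) : ℤ) = 0 := by rw [hst]; ring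
      rw [if_pos h0]
      have h1 : (1 / dst (rr ω) (t ω) * (1 / dst (t1 ω) (t ω)) * 10)⁻¹ ≤ 1 / 2 := by
        rw [inv_le_comm₀ (by linarith) (by norm_num)]
        linarith
      split_ifs
      · have : 0 ≤ (2 * (2 * (1 / dst (rr ω) (t ω) * (1 / dst (t1 ω) (t ω)))) + 1)⁻¹ := by
          apply inv_nonneg.2; linarith
        linarith
      · linarith
    · rw [if_pos (ces_key (s ω) (t ω) (t1 ω) (rr ω) hst)]
      have h1 : (1 / dst (rr ω) (t ω) * (1 / dst (t1 ω) (t ω)) * 10)⁻¹ ≤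
          1 / 2 * (2 * (2 * (1 / dst (rr ω) (t ω) * (1 / dst (t1 ω) (t ω)))) + 1)⁻¹ := by
        rw [one_div 2, ← mul_inv]
        apply inv_anti₀
        · linarith
        · linarith
      have h2 : (0 : ℝ) ≤ 1 / 2 * (if ((s ω : ℕ) : ℤ) - ((t ω : ℕ) : ℤ) = 0 then 1 else 0) := by
        split_ifs <;> norm_num
      linarith

end Pool.Agent.Helper93.TS
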