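import Pool.Agent.Helper93.TS.Stmts

set_option autoImplicit false

namespace Pool.Agent.Helper93.TS

open Pool.Agent.Helper8.Kak

theorem sel_mp {Ω : Type} [Fintype Ω] {p : Ω → ℝ} (hp : ∀ ω, 0 ≤ p ω)
    [Fintype {w : Ω // 0 < p w}] :
    MP (fun w : {w : Ω // 0 < p w} => p w.1) p Subtype.val := by
  classical
  intro b
  unfold law
  by_cases hb : 0 < p b
  · rw [Finset.sum_eq_single (⟨b, hb⟩ : {w : Ω // 0 < p w})]
    · rw [if_pos rfl]
    · intro w _ hw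
      rw [if_neg]
      intro h
      exact hw (Subtype.ext h)
    · intro h
      exact absurd (Finset.mem_univ _) h
  · have h0 : p b = 0 := le_antisymm (not_lt.1 hb) (hp b)
    rw [h0]
    refine Finset.sum_eq_zero fun w _ => ?_
    rw [if_neg]
    intro h
    exact hb (h ▸ w.2)

theorem st_SEL (h1 : ST_SLB) : ST_SEL := by
  intro m α hα hC
  obtain ⟨C, hC0, hC1⟩ := hC
  have h2 := h1 m α C hα hC0 hC1
  refine ⟨C, hC0, fun δ M hδ hδ1 hM L x v hv Ω _ p hp K l T => ?_⟩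
  classical
  have hmp := sel_mp (p := p) hp.1
  have hpos : ∀ w : {w : Ω // 0 < p w}, 0 < (fun w : {w : Ω // 0 < p w} => p w.1) w :=
    fun w => w.2
  have hp' : IsProb (fun w : {w : Ω // 0 < p w} => p w.1) := by
    refine ⟨fun w => w.2.le, ?_⟩
    have e := hmp.sum_comp (fun _ => (1 : ℝ))
    simp only [mul_one] at e
    rw [e, hp.2]
  have h3 := h2 δ M hδ hδ1 hM L x v hv {w : Ω // 0 < p w} (fun w => p w.1) hp' hpos
    (Setoid.comap Subtype.val K) (fun w => l w.1) (fun w => T w.1)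
  have e1 := hmp.Ent_eq K
  have e2 := hmp.Ent_eq (K ⊓ Setoid.ker (fun ω => cell δ (v (l ω))))
  have e3 := hmp.Ent_eq (K ⊓ Setoid.ker T ⊓ Setoid.ker (fun ω => cell δ (pnt x v (l ω) (T ω))))
  have e4 := hmp.Ent_eq (K ⊓ Setoid.ker T)
  have e5 := hmp.Ent_eq (K ⊓ Setoid.ker l ⊓ Setoid.ker T)
  have e6 := hmp.Ent_eq (K ⊓ Setoid.ker l)
  rw [← e1, ← e2, ← e3, ← e4, ← e5, ← e6]
  exact h3

end Pool.Agent.Helper93.TS
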